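import Mathlib

/-!
# Hilbert spaces with a free basis: the trace

A `GSp G S K` is a unitary action of `G` on the real Hilbert space `K` which permutes a Hilbert
basis indexed by `S × G` (by left multiplication on `G`).
-/

set_option autoImplicit false

open scoped RealInnerProductSpace

namespace Pool.Agent.Lib.MP_11cd85_al

/-- Sums over a product with a finite type. -/
theorem hasSum_fin_prod {T A : Type} [Fintype T] (f : T → A → ℝ) (c : T → ℝ)
    (h : ∀ t, HasSum (f t) (c t)) : HasSum (fun p : T × A => f p.1 p.2) (∑ t, c t) := by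
  classical
  have h1 : ∀ t, HasSum (fun p : T × A => if p.1 = t then f p.1 p.2 else 0) (c t) := by
    intro t
    have hi : Function.Injective (fun a : A => (t, a)) := fun a b hab => congrArg Prod.snd hab
    rw [← hi.hasSum_iff]
    · simpa [Function.comp_def] using h t
    · rintro ⟨t', a⟩ hp
      refine if_neg fun h' => hp ?_
      exact ⟨a, by
        change (t, a) = (t', a)
        rw [← (show t' = t from h')]⟩
  have h2 := hasSum_sum (s := Finset.univ) fun t _ => h1 t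
  convert h2 using 1
  funext p
  rw [Finset.sum_ite_eq, if_pos (Finset.mem_univ _)]

/-- A unitary action with a free Hilbert basis. -/
structure GSp (G S K : Type) [Group G] [NormedAddCommGroup K] [InnerProductSpace ℝ K] where
  /-- the basis -/
  b : HilbertBasis (S × G) ℝ K
  /-- the action -/
  R : G →* (K →L[ℝ] K)
  isom : ∀ h x y, ⟪R h x, R h y⟫ = ⟪x, y⟫
  hR : ∀ h s g, R h (b (s, g)) = b (s, h * g)

variable {G S T K L : Type} [Group G] [NormedAddCommGroup K] [InnerProductSpace ℝ K]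
  [NormedAddCommGroup L] [InnerProductSpace ℝ L]

namespace GSp

/-- The generators of the basis. -/
noncomputable def e (U : GSp G S K) (s : S) : K := U.b (s, 1)

theorem b_eq (U : GSp G S K) (s : S) (g : G) : U.b (s, g) = U.R g (U.e s) := by
  unfold e
  rw [U.hR, mul_one]

theorem R_inv_R (U : GSp G S K) (g : G) (x : K) : U.R g⁻¹ (U.R g x) = x := by
  have : (U.R g⁻¹ * U.R g) x = x := by
    rw [← map_mul, inv_mul_cancel, map_one]
    rfl
  exact this

theorem R_R_inv (U : GSp G S K) (g : G) (x : K) : U.R g (U.R g⁻¹ x) = x := by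
  have : (U.R g * U.R g⁻¹) x = x := by
    rw [← map_mul, mul_inv_cancel, map_one]
    rfl
  exact this

theorem inner_R (U : GSp G S K) (g : G) (x y : K) : ⟪U.R g x, y⟫ = ⟪x, U.R g⁻¹ y⟫ := by
  rw [← U.isom g⁻¹ (U.R g x) y, U.R_inv_R]

theorem norm_R (U : GSp G S K) (g : G) (x : K) : ‖U.R g x‖ = ‖x‖ := by
  have h := U.isom g x x
  rw [real_inner_self_eq_norm_sq, real_inner_self_eq_norm_sq] at h
  exact (sq_eq_sq₀ (norm_nonneg _) (norm_nonneg _)).1 h

theorem norm_b (U : GSp G S K) (p : S × G) : ‖U.b p‖ = 1 := U.b.orthonormal.1 p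

theorem norm_e (U : GSp G S K) (s : S) : ‖U.e s‖ = 1 := U.norm_b _

/-- Equivariant operators. -/
def Eqv (U : GSp G S K) (V : GSp G T L) (f : K →L[ℝ] L) : Prop :=
  ∀ h x, f (U.R h x) = V.R h (f x)

theorem Eqv.adjoint [CompleteSpace K] [CompleteSpace L] {U : GSp G S K} {V : GSp G T L}
    {f : K →L[ℝ] L} (hf : Eqv U V f) : Eqv V U (ContinuousLinearMap.adjoint f) := by
  intro h x
  apply ext_inner_right ℝ
  intro y
  rw [ContinuousLinearMap.adjoint_inner_left, V.inner_R, U.inner_R,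
    ContinuousLinearMap.adjoint_inner_left, hf]

theorem Eqv.comp {T' L' : Type} [NormedAddCommGroup L'] [InnerProductSpace ℝ L']
    {U : GSp G S K} {V : GSp G T L} {W : GSp G T' L'} {f : K →L[ℝ] L} {f' : L →L[ℝ] L'}
    (hf : Eqv U V f) (hf' : Eqv V W f') : Eqv U W (f' ∘L f) := by
  intro h x
  rw [ContinuousLinearMap.comp_apply, hf, hf']
  rfl

/-- **The trace property**. -/
theorem trace_comm [Fintype S] [Fintype T] [CompleteSpace K] [CompleteSpace L] (U : GSp G S K)
    (V : GSp G T L) {X : K →L[ℝ] L} {Y : L →L[ℝ] K} (hX : Eqv U V X) (hY : Eqv V U Y) :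
    ∑ t, ⟪X (Y (V.e t)), V.e t⟫ = ∑ s, ⟪Y (X (U.e s)), U.e s⟫ := by
  have h1 : ∀ t, HasSum (fun p : S × G => ⟪Y (V.e t), U.b p⟫ * ⟪X (U.b p), V.e t⟫)
      ⟪X (Y (V.e t)), V.e t⟫ := by
    intro t
    have h := U.b.hasSum_inner_mul_inner (Y (V.e t)) (ContinuousLinearMap.adjoint X (V.e t))
    rw [ContinuousLinearMap.adjoint_inner_right] at h
    simpa only [ContinuousLinearMap.adjoint_inner_right] using h
  have h2 : ∀ s, HasSum (fun p : T × G => ⟪X (U.e s), V.b p⟫ * ⟪Y (V.b p), U.e s⟫)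
      ⟪Y (X (U.e s)), U.e s⟫ := by
    intro s
    have h := V.b.hasSum_inner_mul_inner (X (U.e s)) (ContinuousLinearMap.adjoint Y (U.e s))
    rw [ContinuousLinearMap.adjoint_inner_right] at h
    simpa only [ContinuousLinearMap.adjoint_inner_right] using h
  have h3 : HasSum (fun p : T × (S × G) => ⟪Y (V.e p.1), U.b p.2⟫ * ⟪X (U.b p.2), V.e p.1⟫)
      (∑ t, ⟪X (Y (V.e t)), V.e t⟫) :=
    hasSum_fin_prod (fun t p => ⟪Y (V.e t), U.b p⟫ * ⟪X (U.b p), V.e t⟫) _ h1
  have h4 : HasSum (fun p : S × (T × G) => ⟪X (U.e p.1), V.b p.2⟫ * ⟪Y (V.b p.2), U.e p.1⟫)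
      (∑ s, ⟪Y (X (U.e s)), U.e s⟫) :=
    hasSum_fin_prod (fun s p => ⟪X (U.e s), V.b p⟫ * ⟪Y (V.b p), U.e s⟫) _ h2
  let σ : T × (S × G) ≃ S × (T × G) :=
    { toFun := fun p => (p.2.1, (p.1, p.2.2⁻¹))
      invFun := fun p => (p.2.1, (p.1, p.2.2⁻¹))
      left_inv := fun p => by simp
      right_inv := fun p => by simp }
  have h5 := (Equiv.hasSum_iff σ).2 h4
  refine h3.unique ?_
  convert h5 using 1
  funext p
  obtain ⟨t, s, g⟩ := p
  change ⟪Y (V.e t), U.b (s, g)⟫ * ⟪X (U.b (s, g)), V.e t⟫ =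
    ⟪X (U.e s), V.b (t, g⁻¹)⟫ * ⟪Y (V.b (t, g⁻¹)), U.e s⟫
  rw [U.b_eq, V.b_eq, hX, hY, V.inner_R, U.inner_R, inv_inv, mul_comm]

end GSp

end Pool.Agent.Lib.MP_11cd85_al
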