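import Pool.Agent.Lib.MP_11cd85_al.Rel

/-!
# Reduction of asphericity to the Fox derivative by the new generator
-/

set_option autoImplicit false

open scoped commutatorElement

namespace Pool.Agent.Lib.MP_11cd85_al

section coset

variable {H G : Type} [Group H] [Group G] (j : H →* G) (hj : Function.Injective j)

/-- The part of an element of `ℤG` in the coset `t j(H)`, as an element of `ℤH`. -/
noncomputable def rs (t : G) : MonoidAlgebra ℤ G →+ MonoidAlgebra ℤ H :=
  MonoidAlgebra.comapDomainAddMonoidHom (fun h => t * j h)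
    (fun _ _ h => hj (mul_left_cancel h))

theorem rs_coeff (t : G) (a : MonoidAlgebra ℤ G) (h : H) :
    (rs j hj t a).coeff h = a.coeff (t * j h) := by
  unfold rs
  rw [MonoidAlgebra.comapDomainAddMonoidHom_apply, MonoidAlgebra.coeff_comapDomain,
    Finsupp.comapDomain_apply]

theorem coeff_mul_single' {G : Type} [Group G] (a : MonoidAlgebra ℤ G) (g x : G) (n : ℤ) :
    (a * MonoidAlgebra.single g n).coeff x = a.coeff (x * g⁻¹) * n :=
  MonoidAlgebra.coeff_mul_single_eq_coeff_mul _ fun m' _ => by rw [eq_mul_inv_iff_mul_eq]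

theorem rs_mul (t : G) (a : MonoidAlgebra ℤ G) (b : MonoidAlgebra ℤ H) :
    rs j hj t (a * MonoidAlgebra.mapDomain j b) = rs j hj t a * b := by
  induction b using MonoidAlgebra.induction_linear with
  | zero => rw [MonoidAlgebra.mapDomain_zero, mul_zero, mul_zero, map_zero]
  | add x y hx hy => rw [MonoidAlgebra.mapDomain_add, mul_add, mul_add, map_add, hx, hy]
  | single h n =>
    apply MonoidAlgebra.ext
    apply Finsupp.ext
    intro h'
    rw [rs_coeff, MonoidAlgebra.mapDomain_single, coeff_mul_single', coeff_mul_single', rs_coeff,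
      map_mul j, map_inv j, mul_assoc t]

end coset

section main

variable {X₀ ι₀ : Type} (rs₀ : ι₀ → FreeGroup X₀) (r : FreeGroup (Option X₀))

/-- The relators of `Q`. -/
abbrev relQ : Option ι₀ → FreeGroup (Option X₀) :=
  fun o => Option.elim o r fun i => FreeGroup.map some (rs₀ i)

theorem nc_le_comap : nc rs₀ ≤ (nc (relQ rs₀ r)).comap (FreeGroup.map some) := by
  apply Subgroup.normalClosure_le_normal
  rintro _ ⟨i, rfl⟩
  exact Subgroup.subset_normalClosure ⟨some i, rfl⟩

/-- The homomorphism from the group of `P` to the group of `Q`. -/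
def jHom : Gp rs₀ →* Gp (relQ rs₀ r) :=
  QuotientGroup.map (nc rs₀) (nc (relQ rs₀ r)) (FreeGroup.map some) (nc_le_comap rs₀ r)

theorem jHom_comp : (jHom rs₀ r).comp (pr rs₀) = (pr (relQ rs₀ r)).comp (FreeGroup.map some) := rfl

theorem jHom_injective (h : ∀ w : FreeGroup X₀, FreeGroup.map some w ∈ nc (relQ rs₀ r) →
    w ∈ nc rs₀) : Function.Injective (jHom rs₀ r) := by
  rw [injective_iff_map_eq_one]
  intro g hg
  obtain ⟨w, rfl⟩ := QuotientGroup.mk'_surjective (nc rs₀) g
  have h1 : pr (relQ rs₀ r) (FreeGroup.map some w) = 1 := hg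
  exact (QuotientGroup.eq_one_iff w).2 (h w ((QuotientGroup.eq_one_iff _).1 h1))

theorem cr_zero {Γ M X : Type} [Group Γ] [AddCommGroup M] (q : FreeGroup X →* Γ)
    (ρ : Γ →* AddMonoid.End M) (w : FreeGroup X) : cr q ρ (fun _ => (0 : M)) w = 0 := by
  symm
  apply eq_cr q ρ (fun _ => (0 : M)) (fun _ => (0 : M))
  · intro u v
    rw [map_zero, add_zero]
  · intro x
    rfl

theorem fox_none (w : FreeGroup X₀) : fox (pr (relQ rs₀ r)) none (FreeGroup.map some w) = 0 := by
  classical
  unfold fox
  rw [cr_map]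
  refine Eq.trans (congrArg (fun c => cr _ _ c w) (funext fun y => ?_)) (cr_zero _ _ w)
  exact if_neg (Option.some_ne_none y)

theorem fox_some (x : X₀) (w : FreeGroup X₀) :
    fox (pr (relQ rs₀ r)) (some x) (FreeGroup.map some w) =
      MonoidAlgebra.mapDomain (jHom rs₀ r) (fox (pr rs₀) x w) := by
  classical
  unfold fox
  rw [cr_map, ← jHom_comp, cr_comp]
  have h := map_cr (pr rs₀) (lreg (Gp rs₀)) (fun y => if y = x then 1 else 0)
    ((lreg (Gp (relQ rs₀ r))).comp (jHom rs₀ r))
    (MonoidAlgebra.mapDomainRingHom ℤ (jHom rs₀ r)).toAddMonoidHom ?_ w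
  · refine Eq.trans ?_ h.symm
    congr 1
    funext y
    by_cases hy : y = x
    · rw [if_pos hy, if_pos (congrArg some hy)]
      exact (map_one (MonoidAlgebra.mapDomainRingHom ℤ (jHom rs₀ r))).symm
    · rw [if_neg hy, if_neg (fun h => hy (Option.some_injective _ h))]
      exact (map_zero (MonoidAlgebra.mapDomainRingHom ℤ (jHom rs₀ r))).symm
  · intro g m
    rw [lreg_apply]
    change MonoidAlgebra.mapDomainRingHom ℤ (jHom rs₀ r) (MonoidAlgebra.single g 1 * m) =
      MonoidAlgebra.single (jHom rs₀ r g) 1 * MonoidAlgebra.mapDomainRingHom ℤ (jHom rs₀ r) m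
    rw [map_mul]
    congr 1
    exact MonoidAlgebra.mapDomain_single

/-- **Reduction**: if `P` is aspherical, `H` embeds in `G` and the Fox derivative `δ` of `r` by the
new generator has no left annihilator, then `Q` is aspherical. -/
theorem asph_of_fox [Fintype X₀] [Fintype ι₀] (hP : Asph rs₀)
    (hinj : ∀ w : FreeGroup X₀, FreeGroup.map some w ∈ nc (relQ rs₀ r) → w ∈ nc rs₀)
    (hδ : ∀ a : MonoidAlgebra ℤ (Gp (relQ rs₀ r)), a * fox (pr (relQ rs₀ r)) none r = 0 → a = 0) :
    Asph (relQ rs₀ r) := by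
  classical
  have hj := jHom_injective rs₀ r hinj
  rw [asph_iff] at hP ⊢
  intro a ha
  have h0 : a none = 0 := by
    apply hδ
    have h := ha none
    rw [Fintype.sum_option] at h
    have h1 : ∑ i : ι₀, a (some i) * fox (pr (relQ rs₀ r)) none (relQ rs₀ r (some i)) = 0 := by
      apply Finset.sum_eq_zero
      intro i _
      change a (some i) * fox (pr (relQ rs₀ r)) none (FreeGroup.map some (rs₀ i)) = 0
      rw [fox_none, mul_zero]
    rw [h1, add_zero] at h
    exact h
  have h2 : ∀ i : ι₀, a (some i) = 0 := by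
    intro i
    apply MonoidAlgebra.ext
    apply Finsupp.ext
    intro t
    have h3 : ∀ i, rs (jHom rs₀ r) hj t (a (some i)) = 0 := by
      apply hP
      intro x
      have h := ha (some x)
      rw [Fintype.sum_option, h0, zero_mul, zero_add] at h
      have h4 := congrArg (rs (jHom rs₀ r) hj t) h
      rw [map_sum, map_zero] at h4
      rw [← h4]
      apply Finset.sum_congr rfl
      intro i _
      change _ = rs (jHom rs₀ r) hj t
        (a (some i) * fox (pr (relQ rs₀ r)) (some x) (FreeGroup.map some (rs₀ i)))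
      rw [fox_some, rs_mul]
    have h5 := rs_coeff (jHom rs₀ r) hj t (a (some i)) 1
    rw [h3 i, map_one (jHom rs₀ r), mul_one] at h5
    exact h5.symm
  intro i
  cases i with
  | none => exact h0
  | some i => exact h2 i

end main

end Pool.Agent.Lib.MP_11cd85_al
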