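import Pool.Agent.Lib.MP_11cd85_al.Opt
import Pool.Agent.Lib.MP_11cd85_al.Mg.G001
import Pool.Agent.Lib.MP_11cd85_al.Res

/-!
# Cocycles with values in `ℓ²(G)`
-/

set_option autoImplicit false
set_option linter.unusedSectionVars false

open scoped RealInnerProductSpace

namespace Pool.Agent.Lib.MP_11cd85_al

variable {G : Type} [Group G]

/-- Cocycles with values in `ℓ²(G)`. -/
def Coc (b : G → E2 G) : Prop := ∀ g h, b (g * h) = b g + lt G g (b h)

/-- Pointwise limits of coboundaries. -/
def Lim (b : G → E2 G) : Prop :=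
  ∀ (s : Finset G) (ε : ℝ), 0 < ε → ∃ f : E2 G, ∀ g ∈ s, ‖b g - (lt G g f - f)‖ < ε

/-- A function in `ℓ²(G)` that is invariant under an element of infinite order is zero. -/
theorem eq_zero_of_invariant {z : G} (hz : ¬ IsOfFinOrder z) {f : E2 G} (hf : lt G z f = f) :
    f = 0 := by
  have hinj : Function.Injective (fun n : ℕ => z ^ n) := injective_pow_iff_not_isOfFinOrder.2 hz
  have h1 : ∀ (n : ℕ) (x : G), f (z ^ n * x) = f x := by
    intro n
    induction n with
    | zero => intro x; rw [pow_zero, one_mul]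
    | succ n ih =>
      intro x
      have h2 : lt G z f (z ^ (n + 1) * x) = f (z ^ n * x) := by
        rw [lt_apply, pow_succ', mul_assoc, inv_mul_cancel_left]
      rw [← ih x, ← h2, hf]
  apply lp.ext
  funext x
  by_contra hx
  have h2 : Summable fun n : ℕ => (f (z ^ n * x)) ^ 2 :=
    f.summable.comp_injective (i := fun n : ℕ => z ^ n * x) (fun a b hab => hinj (mul_right_cancel hab))
  simp only [h1] at h2
  have h3 := h2.tendsto_atTop_zero
  have h4 := tendsto_nhds_unique h3 tendsto_const_nhds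
  have h5 : f x ≠ 0 := hx
  exact absurd h4.symm (pow_ne_zero 2 h5)

variable {T : Type} [Fintype T]

/-- The inclusion of the slice at `t`. -/
theorem sl_inj (G : Type) {T : Type} (t : T) : Function.Injective (fun g : G => (t, g)) :=
  fun _ _ h => congrArg Prod.snd h

/-- The component at `t`. -/
noncomputable abbrev cp (G : Type) {T : Type} (t : T) : E2 (T × G) →L[ℝ] E2 G :=
  cmp (fun g : G => (t, g)) (sl_inj G t)

/-- The function with component `f` at `t`. -/
noncomputable abbrev ic (G : Type) {T : Type} (t : T) : E2 G →L[ℝ] E2 (T × G) :=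
  ext0 (fun g : G => (t, g)) (sl_inj G t)

theorem ic_same (t : T) (f : E2 G) (x : G) : ic G t f (t, x) = f x :=
  ext0_apply (fun g : G => (t, g)) (sl_inj G t) f x

theorem ic_ne {s t : T} (h : s ≠ t) (f : E2 G) (x : G) : ic G s f (t, x) = 0 :=
  ext0_apply_of_not_mem (fun g : G => (s, g)) (sl_inj G s) f
    (fun _ ha => h (congrArg Prod.fst ha))

/-- The function with the components `F t`. -/
noncomputable def asm (F : T → E2 G) : E2 (T × G) := ∑ t, ic G t (F t)

theorem asm_apply (F : T → E2 G) (t : T) (x : G) : asm F (t, x) = F t x := by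
  classical
  unfold asm
  have h1 : ((∑ s, ic G s (F s) : E2 (T × G)) : T × G → ℝ) (t, x) =
      ∑ s, (ic G s (F s)) (t, x) := by
    rw [lp.coeFn_sum, Finset.sum_apply]
  rw [h1, Finset.sum_eq_single t]
  · exact ic_same t _ x
  · intro s _ hs
    exact ic_ne hs _ x
  · intro h
    exact absurd (Finset.mem_univ t) h

theorem cp_asm (F : T → E2 G) (t : T) : cp G t (asm F) = F t := by
  apply lp.ext
  funext x
  rw [cmp_apply, asm_apply]

theorem norm_asm_le (F : T → E2 G) : ‖asm F‖ ≤ ∑ t, ‖F t‖ := by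
  unfold asm
  refine (norm_sum_le _ _).trans (Finset.sum_le_sum fun t _ => ?_)
  rw [norm_ext0]

/-- The coboundary operator. -/
noncomputable def cob (x : T → G) : E2 G →L[ℝ] E2 (T × G) :=
  ∑ t, ic G t ∘L (lt G (x t) - ContinuousLinearMap.id ℝ (E2 G))

theorem cob_eq (x : T → G) (f : E2 G) : cob x f = asm (fun t => lt G (x t) f - f) := by
  unfold cob asm
  rw [sum_apply]
  rfl

theorem cob_eqv (x : T → G) : GSp.Eqv (sp1 G) (spT T G) (cob x) := by
  intro h f
  apply lp.ext
  funext p
  obtain ⟨t, y⟩ := p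
  rw [spT_R, cob_eq, cob_eq, asm_apply, asm_apply]
  change lt G (x t) ((sp1 G).R h f) y - (sp1 G).R h f y = lt G (x t) f (y * h) - f (y * h)
  rw [lt_apply, lt_apply, sp1_R, sp1_R, mul_assoc]

variable (q : FreeGroup T →* G)

/-- The value of the crossed homomorphism at the word `u`. -/
noncomputable def crw (u : FreeGroup T) : E2 (T × G) →L[ℝ] E2 G :=
  ∑ t, opT G (fox q t u) ∘L cp G t

theorem crw_apply (u : FreeGroup T) (w : E2 (T × G)) :
    crw q u w = cr q (ltE G) (fun t => cp G t w) u := by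
  unfold crw
  rw [cr_eq_sum, sum_apply]
  refine Finset.sum_congr rfl fun t _ => ?_
  rw [← opT_eq_act]
  rfl

theorem crw_eqv (u : FreeGroup T) : GSp.Eqv (spT T G) (sp1 G) (crw q u) := by
  intro h w
  unfold crw
  rw [sum_apply, sum_apply, map_sum]
  refine Finset.sum_congr rfl fun t _ => ?_
  change opT G (fox q t u) (cp G t ((spT T G).R h w)) =
    (sp1 G).R h (opT G (fox q t u) (cp G t w))
  rw [← opT_eqv]
  congr 1

theorem crw_cob (u : FreeGroup T) (f : E2 G) :
    crw q u (cob (fun t => q (FreeGroup.of t)) f) = lt G (q u) f - f := by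
  rw [crw_apply]
  symm
  apply eq_cr q (ltE G) _ (fun w => lt G (q w) f - f)
  · intro a b
    change lt G (q (a * b)) f - f = lt G (q a) f - f + lt G (q a) (lt G (q b) f - f)
    rw [map_sub, map_mul, map_mul]
    change lt G (q a) (lt G (q b) f) - f = _
    abel
  · intro t
    rw [cob_eq, cp_asm]

/-- A cocycle is a crossed homomorphism. -/
theorem coc_eq_cr {b : G → E2 G} (hb : Coc b) (u : FreeGroup T) :
    b (q u) = cr q (ltE G) (fun t => b (q (FreeGroup.of t))) u := by
  apply eq_cr q (ltE G) _ (fun w => b (q w))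
  · intro a c
    rw [map_mul, hb]
    rfl
  · intro t
    rfl

/-- **A limit of coboundaries that vanishes at an element of infinite order is zero.** -/
theorem eq_zero_of_lim (hq : Function.Surjective q) {b : G → E2 G} (hb : Coc b) (hl : Lim b)
    {z : G} (hz : ¬ IsOfFinOrder z) (hbz : b z = 0) (g : G) : b g = 0 := by
  classical
  obtain ⟨x, hx⟩ : ∃ x : T → G, x = fun t => q (FreeGroup.of t) := ⟨_, rfl⟩
  obtain ⟨u, hu⟩ := hq z
  obtain ⟨w, hw⟩ : ∃ w : E2 (T × G), w = asm (fun t => b (x t)) := ⟨_, rfl⟩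
  have hw0 : crw q u w = 0 := by
    rw [crw_apply, hw]
    simp only [cp_asm]
    rw [hx, ← coc_eq_cr q hb, hu, hbz]
  have hwB : w ∈ Bcl (cob x) := by
    have h1 : w ∈ closure (LinearMap.range (cob x).toLinearMap : Set (E2 (T × G))) := by
      rw [Metric.mem_closure_iff]
      intro ε hε
      obtain ⟨f, hf⟩ := hl (Finset.univ.image x) (ε / (Fintype.card T + 1)) (by positivity)
      refine ⟨cob x f, ⟨f, rfl⟩, ?_⟩
      rw [dist_eq_norm]
      have h2 : w - cob x f = asm (fun t => b (x t) - (lt G (x t) f - f)) := by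
        rw [hw, cob_eq]
        unfold asm
        rw [← Finset.sum_sub_distrib]
        refine Finset.sum_congr rfl fun t _ => ?_
        change ic G t (b (x t)) - ic G t (lt G (x t) f - f) =
          ic G t (b (x t) - (lt G (x t) f - f))
        exact (map_sub (ic G t) (b (x t)) (lt G (x t) f - f)).symm
      rw [h2]
      refine lt_of_le_of_lt (norm_asm_le _) ?_
      have h3 : ∑ t, ‖b (x t) - (lt G (x t) f - f)‖ ≤
          ∑ _t : T, ε / (Fintype.card T + 1) :=
        Finset.sum_le_sum fun t _ =>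
          (hf (x t) (Finset.mem_image_of_mem _ (Finset.mem_univ t))).le
      rw [Finset.sum_const, Finset.card_univ, nsmul_eq_mul] at h3
      refine lt_of_le_of_lt h3 ?_
      rw [← mul_div_assoc, div_lt_iff₀ (by positivity)]
      nlinarith
    rwa [← Submodule.topologicalClosure_coe] at h1
  obtain ⟨E, hE⟩ : ∃ E : Submodule ℝ (E2 (T × G)), E = Bcl (cob x) ⊓ (crw q u).ker := ⟨_, rfl⟩
  have hEmem : ∀ y, y ∈ E ↔ y ∈ Bcl (cob x) ∧ crw q u y = 0 := by
    intro y
    rw [hE, Submodule.mem_inf]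
    rfl
  have hbot : E = ⊥ := by
    refine eq_bot_of_inj (S := Unit) (T := T) (U := sp1 G) (V := spT T G) (cob_eqv x) E ?_ ?_ ?_ ?_
    · rw [hE]
      exact (Submodule.isClosed_topologicalClosure _).inter (crw q u).isClosed_ker
    · intro h y hy
      rw [hEmem] at hy ⊢
      refine ⟨Bcl_invariant (cob_eqv x) h hy.1, ?_⟩
      rw [crw_eqv, hy.2, map_zero]
    · intro y hy
      exact ((hEmem y).1 hy).1
    · intro f hf
      have h1 := ((hEmem _).1 hf).2
      rw [hx, crw_cob, hu, sub_eq_zero] at h1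
      exact eq_zero_of_invariant hz h1
  have hw1 : w = 0 := by
    have h1 : w ∈ E := (hEmem w).2 ⟨hwB, hw0⟩
    rw [hbot] at h1
    exact (Submodule.mem_bot ℝ).1 h1
  obtain ⟨v, hv⟩ := hq g
  rw [← hv, coc_eq_cr q hb]
  have h2 : (fun t => b (q (FreeGroup.of t))) = fun _ => (0 : E2 G) := by
    funext t
    have h3 := cp_asm (fun t => b (x t)) t
    rw [← hw, hw1, map_zero, hx] at h3
    exact h3.symm
  rw [h2]
  exact cr_zero q (ltE G) v

/-- Crossed homomorphisms which vanish on the relators are cocycles. -/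
theorem exists_coc {ι : Type} (rel : ι → FreeGroup T) (c : T → E2 (Gp rel))
    (hc : ∀ i, cr (pr rel) (ltE (Gp rel)) c (rel i) = 0) :
    ∃ b : Gp rel → E2 (Gp rel), Coc b ∧ ∀ w, b (pr rel w) = cr (pr rel) (ltE (Gp rel)) c w := by
  have hnc : ∀ u ∈ nc rel, cr (pr rel) (ltE (Gp rel)) c u = 0 := fun u hu =>
    cr_normalClosure (pr rel) (ltE (Gp rel)) c rel (pr_rel rel) hc hu
  have hwd : ∀ u v : FreeGroup T, pr rel u = pr rel v →
      cr (pr rel) (ltE (Gp rel)) c u = cr (pr rel) (ltE (Gp rel)) c v := by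
    intro u v huv
    have h1 : u⁻¹ * v ∈ nc rel := QuotientGroup.eq.1 huv
    have h2 : v = u * (u⁻¹ * v) := by group
    rw [h2, cr_mul, hnc _ h1, map_zero, add_zero]
  have hb : ∀ w, cr (pr rel) (ltE (Gp rel)) c (Quotient.out (pr rel w)) =
      cr (pr rel) (ltE (Gp rel)) c w := by
    intro w
    exact hwd _ _ (QuotientGroup.out_eq' (pr rel w))
  refine ⟨fun g => cr (pr rel) (ltE (Gp rel)) c (Quotient.out g), ?_, hb⟩
  intro g h
  obtain ⟨u, rfl⟩ := QuotientGroup.mk'_surjective (nc rel) g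
  obtain ⟨v, rfl⟩ := QuotientGroup.mk'_surjective (nc rel) h
  have h1 := hb (u * v)
  rw [map_mul, cr_mul] at h1
  have h2 := hb u
  have h3 := hb v
  change cr (pr rel) (ltE (Gp rel)) c (Quotient.out (pr rel u * pr rel v)) =
    cr (pr rel) (ltE (Gp rel)) c (Quotient.out (pr rel u)) +
      lt (Gp rel) (pr rel u) (cr (pr rel) (ltE (Gp rel)) c (Quotient.out (pr rel v)))
  rw [h1, h2, h3]
  rfl

end Pool.Agent.Lib.MP_11cd85_al
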