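import Mathlib

/-!
# Crossed homomorphisms on free groups (Fox calculus)

`ρ : Γ →* AddMonoid.End M` is an action of `Γ` on the abelian group `M`, `q : FreeGroup X →* Γ` a
homomorphism; `cr q ρ c : FreeGroup X → M` is the crossed homomorphism with values `c x` on the
generators.
-/

set_option autoImplicit false

open scoped commutatorElement

namespace Pool.Agent.Lib.MP_11cd85_al

variable {Γ M : Type} [Group Γ] [AddCommGroup M]

/-- The group `M ⋊ Γ` of affine maps. -/
structure Aff (ρ : Γ →* AddMonoid.End M) where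
  /-- the translation part -/
  vec : M
  /-- the linear part -/
  elt : Γ

namespace Aff

variable {ρ : Γ →* AddMonoid.End M}

theorem ext' {a b : Aff ρ} (h1 : a.vec = b.vec) (h2 : a.elt = b.elt) : a = b := by
  cases a; cases b
  cases h1; cases h2
  rfl

instance : Mul (Aff ρ) := ⟨fun a b => ⟨a.vec + ρ a.elt b.vec, a.elt * b.elt⟩⟩
instance : One (Aff ρ) := ⟨⟨0, 1⟩⟩
instance : Inv (Aff ρ) := ⟨fun a => ⟨-(ρ a.elt⁻¹ a.vec), a.elt⁻¹⟩⟩

theorem mul_vec (a b : Aff ρ) : (a * b).vec = a.vec + ρ a.elt b.vec := rfl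
theorem mul_elt (a b : Aff ρ) : (a * b).elt = a.elt * b.elt := rfl
theorem one_vec : (1 : Aff ρ).vec = 0 := rfl
theorem one_elt : (1 : Aff ρ).elt = 1 := rfl
theorem inv_vec (a : Aff ρ) : (a⁻¹).vec = -(ρ a.elt⁻¹ a.vec) := rfl
theorem inv_elt (a : Aff ρ) : (a⁻¹).elt = a.elt⁻¹ := rfl

instance : Group (Aff ρ) :=
  Group.ofLeftAxioms
    (by
      intro a b c
      refine ext' ?_ (mul_assoc _ _ _)
      rw [mul_vec, mul_vec, mul_vec, mul_vec, mul_elt, map_mul, map_add, add_assoc]
      rfl)
    (by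
      intro a
      refine ext' ?_ (one_mul _)
      rw [mul_vec, one_vec, one_elt, map_one, zero_add]
      rfl)
    (by
      intro a
      refine ext' ?_ (inv_mul_cancel _)
      rw [mul_vec, inv_vec, inv_elt, one_vec, neg_add_cancel])

end Aff

section cr

variable {X : Type} (q : FreeGroup X →* Γ) (ρ : Γ →* AddMonoid.End M) (c : X → M)

/-- The homomorphism to the affine group. -/
def crHom : FreeGroup X →* Aff ρ :=
  FreeGroup.lift fun x => ⟨c x, q (FreeGroup.of x)⟩

/-- The crossed homomorphism with values `c x` on the generators. -/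
def cr (w : FreeGroup X) : M := (crHom q ρ c w).vec

theorem crHom_elt (w : FreeGroup X) : (crHom q ρ c w).elt = q w := by
  let π : Aff ρ →* Γ :=
    { toFun := Aff.elt, map_one' := rfl, map_mul' := fun _ _ => rfl }
  have : π.comp (crHom q ρ c) = q := by
    apply FreeGroup.ext_hom
    intro x
    simp [π, crHom]
  exact DFunLike.congr_fun this w

@[simp] theorem cr_one : cr q ρ c 1 = 0 := by
  unfold cr
  rw [map_one]
  rfl

@[simp] theorem cr_of (x : X) : cr q ρ c (FreeGroup.of x) = c x := by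
  unfold cr crHom
  rw [FreeGroup.lift_apply_of]

theorem cr_mul (u v : FreeGroup X) : cr q ρ c (u * v) = cr q ρ c u + ρ (q u) (cr q ρ c v) := by
  unfold cr
  rw [map_mul, Aff.mul_vec, crHom_elt]

theorem cr_inv (u : FreeGroup X) : cr q ρ c u⁻¹ = -ρ (q u)⁻¹ (cr q ρ c u) := by
  unfold cr
  rw [map_inv, Aff.inv_vec, crHom_elt]

/-- Conjugates of elements of the kernel. -/
theorem cr_conj (g : FreeGroup X) {u : FreeGroup X} (hu : q u = 1) :
    cr q ρ c (g * u * g⁻¹) = ρ (q g) (cr q ρ c u) := by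
  have h : ρ (q g) (ρ (q g)⁻¹ (cr q ρ c g)) = cr q ρ c g := by
    have h1 : (ρ (q g) * ρ (q g)⁻¹) (cr q ρ c g) = cr q ρ c g := by
      rw [← map_mul, mul_inv_cancel, map_one]
      rfl
    exact h1
  rw [cr_mul, cr_mul, cr_inv, map_mul, hu, mul_one, map_neg, h]
  abel

theorem cr_mul_ker {u : FreeGroup X} (hu : q u = 1) (v : FreeGroup X) :
    cr q ρ c (u * v) = cr q ρ c u + cr q ρ c v := by
  rw [cr_mul, hu, map_one]
  rfl

theorem cr_inv_ker {u : FreeGroup X} (hu : q u = 1) : cr q ρ c u⁻¹ = -cr q ρ c u := by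
  rw [cr_inv, hu, inv_one, map_one]
  rfl

/-- The restriction of the crossed homomorphism to the kernel of `q`, a homomorphism. -/
def crKer : q.ker →* Multiplicative M where
  toFun u := Multiplicative.ofAdd (cr q ρ c u.1)
  map_one' := by
    rw [Subgroup.coe_one, cr_one]
    rfl
  map_mul' u v := by
    rw [Subgroup.coe_mul, cr_mul_ker q ρ c u.2]
    rfl

theorem crKer_apply (u : q.ker) : (crKer q ρ c u).toAdd = cr q ρ c u.1 := rfl

theorem cr_zpow {u : FreeGroup X} (hu : q u = 1) (k : ℤ) :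
    cr q ρ c (u ^ k) = k • cr q ρ c u := by
  have h := crKer_apply q ρ c ((⟨u, hu⟩ : q.ker) ^ k)
  rw [map_zpow, toAdd_zpow, crKer_apply] at h
  exact h.symm

/-- The crossed homomorphism vanishes on `[N,N]` for `N ≤ ker q`. -/
theorem cr_commutator {N : Subgroup (FreeGroup X)} (hN : ∀ u ∈ N, q u = 1) {u : FreeGroup X}
    (hu : u ∈ ⁅N, N⁆) : cr q ρ c u = 0 ∧ q u = 1 := by
  have hle : ⁅N, N⁆ ≤ N := Subgroup.commutator_le_self N
  refine ⟨?_, hN u (hle hu)⟩
  have h1 : ⁅N, N⁆ ≤ ((crKer q ρ c).ker).map q.ker.subtype := by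
    rw [Subgroup.commutator_le]
    intro a ha b hb
    refine ⟨⁅(⟨a, hN a ha⟩ : q.ker), ⟨b, hN b hb⟩⁆, ?_, rfl⟩
    change crKer q ρ c _ = 1
    rw [map_commutatorElement, commutatorElement_eq_one_iff_mul_comm]
    exact mul_comm _ _
  obtain ⟨v, hv, rfl⟩ := h1 hu
  have h2 : crKer q ρ c v = 1 := hv
  exact congrArg Multiplicative.toAdd h2

/-- A crossed homomorphism is determined by its values on the generators. -/
theorem eq_cr (b : FreeGroup X → M) (hb : ∀ u v, b (u * v) = b u + ρ (q u) (b v))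
    (hc : ∀ x, b (FreeGroup.of x) = c x) (w : FreeGroup X) : b w = cr q ρ c w := by
  have h0 : b 1 = 0 := by
    have h := hb 1 1
    rw [mul_one, map_one, map_one] at h
    have h' : b 1 = b 1 + b 1 := h
    simpa using h'
  let B : FreeGroup X →* Aff ρ :=
    { toFun := fun w => ⟨b w, q w⟩
      map_one' := Aff.ext' h0 (map_one q)
      map_mul' := fun u v => Aff.ext' (hb u v) (map_mul q u v) }
  have : B = crHom q ρ c := by
    apply FreeGroup.ext_hom
    intro x
    simp [B, crHom, hc]
  exact congrArg Aff.vec (DFunLike.congr_fun this w)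

/-- Naturality in the coefficients. -/
theorem map_cr {M' : Type} [AddCommGroup M'] (ρ' : Γ →* AddMonoid.End M') (f : M →+ M')
    (hf : ∀ g m, f (ρ g m) = ρ' g (f m)) (w : FreeGroup X) :
    f (cr q ρ c w) = cr q ρ' (fun x => f (c x)) w := by
  let F : Aff ρ →* Aff ρ' :=
    { toFun := fun a => ⟨f a.vec, a.elt⟩
      map_one' := Aff.ext' (map_zero f) rfl
      map_mul' := fun a b => Aff.ext' (by
        change f (a.vec + ρ a.elt b.vec) = f a.vec + ρ' a.elt (f b.vec)
        rw [map_add, hf]) rfl }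
  have : F.comp (crHom q ρ c) = crHom q ρ' (fun x => f (c x)) := by
    apply FreeGroup.ext_hom
    intro x
    simp [F, crHom]
  exact congrArg Aff.vec (DFunLike.congr_fun this w)

/-- Naturality in the free group: restriction along a map of generators. -/
theorem cr_map {Y : Type} (j : Y → X) (w : FreeGroup Y) :
    cr q ρ c (FreeGroup.map j w) = cr (q.comp (FreeGroup.map j)) ρ (fun y => c (j y)) w := by
  have : (crHom q ρ c).comp (FreeGroup.map j) =
      crHom (q.comp (FreeGroup.map j)) ρ (fun y => c (j y)) := by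
    apply FreeGroup.ext_hom
    intro x
    simp [crHom]
  exact congrArg Aff.vec (DFunLike.congr_fun this w)

/-- Naturality in the group. -/
theorem cr_comp {Γ' : Type} [Group Γ'] (p : Γ →* Γ') (ρ' : Γ' →* AddMonoid.End M)
    (w : FreeGroup X) : cr (p.comp q) ρ' c w = cr q (ρ'.comp p) c w := by
  let F : Aff (ρ'.comp p) →* Aff ρ' :=
    { toFun := fun a => ⟨a.vec, p a.elt⟩
      map_one' := Aff.ext' rfl (map_one p)
      map_mul' := fun a b => Aff.ext' rfl (map_mul p _ _) }
  have : F.comp (crHom q (ρ'.comp p) c) = crHom (p.comp q) ρ' c := by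
    apply FreeGroup.ext_hom
    intro x
    simp [F, crHom]
  exact (congrArg Aff.vec (DFunLike.congr_fun this w)).symm

/-- If the relators are in the kernel of `q` and the crossed homomorphism vanishes on them, it
vanishes on their normal closure. -/
theorem cr_normalClosure {ι : Type} (rel : ι → FreeGroup X) (hq : ∀ i, q (rel i) = 1)
    (hc : ∀ i, cr q ρ c (rel i) = 0) {u : FreeGroup X}
    (hu : u ∈ Subgroup.normalClosure (Set.range rel)) : cr q ρ c u = 0 := by
  have h1 : Subgroup.normalClosure (Set.range rel) ≤ (crHom q ρ c).ker := by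
    apply Subgroup.normalClosure_le_normal
    rintro _ ⟨i, rfl⟩
    change crHom q ρ c (rel i) = 1
    exact Aff.ext' (hc i) ((crHom_elt q ρ c _).trans (hq i))
  have h2 : crHom q ρ c u = 1 := h1 hu
  exact congrArg Aff.vec h2

end cr

end Pool.Agent.Lib.MP_11cd85_al
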