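import Pool.Agent.Lib.MP_11cd85_al.Coc

/-!
# The subgroup where a cocycle vanishes; the case where `H` is trivial
-/

set_option autoImplicit false
set_option linter.unusedSectionVars false

open scoped RealInnerProductSpace

namespace Pool.Agent.Lib.MP_11cd85_al

section zero

variable {G : Type} [Group G] {b : G → E2 G} (hb : Coc b)

include hb

theorem coc_one : b 1 = 0 := by
  have h := hb 1 1
  rw [mul_one, map_one] at h
  have h' : b 1 = b 1 + b 1 := h
  simpa using h'

theorem coc_inv {g : G} (hg : b g = 0) : b g⁻¹ = 0 := by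
  have h := hb g⁻¹ g
  rw [inv_mul_cancel, coc_one hb, hg, map_zero, add_zero] at h
  exact h.symm

/-- The subgroup where the cocycle vanishes. -/
def zer : Subgroup G where
  carrier := {g | b g = 0}
  mul_mem' {g h} hg hh := by
    change b (g * h) = 0
    have hg' : b g = 0 := hg
    have hh' : b h = 0 := hh
    rw [hb, hg', hh', map_zero, add_zero]
  one_mem' := coc_one hb
  inv_mem' {_} hg := coc_inv hb hg

theorem mem_zer (g : G) : g ∈ zer hb ↔ b g = 0 := Iff.rfl

/-- **The zero set is malnormal**, if `G` is torsion-free. -/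
theorem zer_malnormal (htf : ∀ g : G, IsOfFinOrder g → g = 1) {g y : G} (hg : g ∉ zer hb)
    (hy : y ∈ zer hb) (hgy : g * y * g⁻¹ ∈ zer hb) : y = 1 := by
  by_contra hy1
  apply hg
  have hz : ¬ IsOfFinOrder (g * y * g⁻¹) := by
    intro h
    have h1 := htf _ h
    apply hy1
    have h2 : y = g⁻¹ * (g * y * g⁻¹) * g := by group
    rw [h2, h1]
    group
  rw [mem_zer] at hy hgy ⊢
  apply eq_zero_of_invariant hz
  have h1 : b (g * y * g⁻¹ * g) = lt G (g * y * g⁻¹) (b g) := by
    rw [hb, hgy, zero_add]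
  have h2 : g * y * g⁻¹ * g = g * y := by group
  rw [h2, hb, hy, map_zero, add_zero] at h1
  exact h1.symm

end zero

section trivial

variable {X₀ ι₀ : Type} (rs₀ : ι₀ → FreeGroup X₀) (r : FreeGroup (Option X₀))

open scoped Classical in
/-- The exponent sum of the new generator. -/
noncomputable def exs (X₀ : Type) : FreeGroup (Option X₀) →* Multiplicative ℤ :=
  FreeGroup.lift (fun a : Option X₀ =>
    if a = none then Multiplicative.ofAdd (1 : ℤ) else (1 : Multiplicative ℤ))

/-- The augmentation. -/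
noncomputable def aug (Γ : Type) [Group Γ] : MonoidAlgebra ℤ Γ →ₐ[ℤ] ℤ :=
  MonoidAlgebra.lift ℤ ℤ Γ 1

theorem aug_single {Γ : Type} [Group Γ] (g : Γ) (n : ℤ) :
    aug Γ (MonoidAlgebra.single g n) = n := by
  unfold aug
  rw [MonoidAlgebra.lift_single]
  simp

theorem aug_fox {Γ : Type} [Group Γ] (q : FreeGroup (Option X₀) →* Γ)
    (w : FreeGroup (Option X₀)) : aug Γ (fox q none w) = (exs X₀ w).toAdd := by
  classical
  let φ : FreeGroup (Option X₀) →* Multiplicative ℤ :=
    { toFun := fun w => Multiplicative.ofAdd (aug Γ (fox q none w))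
      map_one' := by
        unfold fox
        rw [cr_one, map_zero]
        rfl
      map_mul' := fun u v => by
        rw [fox_mul, map_add, map_mul, aug_single, one_mul]
        rfl }
  have h : φ = exs X₀ := by
    apply FreeGroup.ext_hom
    intro a
    change Multiplicative.ofAdd (aug Γ (fox q none (FreeGroup.of a))) = _
    rw [fox_of]
    unfold exs
    rw [FreeGroup.lift_apply_of]
    by_cases ha : a = none
    · rw [if_pos ha, if_pos ha, map_one]
    · rw [if_neg ha, if_neg ha, map_zero]
      rfl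
  exact congrArg Multiplicative.toAdd (DFunLike.congr_fun h w)

/-- **If `H` is trivial and the exponent sum is non-zero, `G` is trivial.** -/
theorem trivial_of_top (hH : nc rs₀ = ⊤) (he : (exs X₀ r).toAdd ≠ 0)
    (htf : ∀ (w : FreeGroup (Option X₀)) (k : ℕ), 0 < k → w ^ k ∈ nc (relQ rs₀ r) →
      w ∈ nc (relQ rs₀ r)) (g : Gp (relQ rs₀ r)) : g = 1 := by
  classical
  have h1 : ∀ x : X₀, pr (relQ rs₀ r) (FreeGroup.of (some x)) = 1 := by
    intro x
    have h2 : FreeGroup.of x ∈ nc rs₀ := by
      rw [hH]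
      trivial
    have h3 := nc_le_comap rs₀ r h2
    rw [Subgroup.mem_comap, FreeGroup.map.of] at h3
    exact (QuotientGroup.eq_one_iff _).2 h3
  have h2 : pr (relQ rs₀ r) =
      (zpowersHom _ (pr (relQ rs₀ r) (FreeGroup.of none))).comp (exs X₀) := by
    apply FreeGroup.ext_hom
    intro a
    rw [MonoidHom.comp_apply]
    unfold exs
    rw [FreeGroup.lift_apply_of]
    cases a with
    | none =>
      rw [if_pos rfl, zpowersHom_apply]
      simp
    | some x =>
      rw [if_neg (Option.some_ne_none x), map_one]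
      exact h1 x
  have h3 : ∀ w, pr (relQ rs₀ r) w =
      pr (relQ rs₀ r) (FreeGroup.of none) ^ (exs X₀ w).toAdd := by
    intro w
    have h4 := DFunLike.congr_fun h2 w
    rw [MonoidHom.comp_apply, zpowersHom_apply] at h4
    exact h4
  have h4 : pr (relQ rs₀ r) (FreeGroup.of none) ^ (exs X₀ r).toAdd = 1 := by
    rw [← h3]
    exact pr_rel (relQ rs₀ r) none
  have h5 : pr (relQ rs₀ r) (FreeGroup.of none) ^ (exs X₀ r).toAdd.natAbs = 1 := by
    rcases Int.natAbs_eq (exs X₀ r).toAdd with h6 | h6
    · rw [h6, zpow_natCast] at h4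
      exact h4
    · rw [h6, zpow_neg, zpow_natCast, inv_eq_one] at h4
      exact h4
  have h6 : pr (relQ rs₀ r) (FreeGroup.of none) = 1 := by
    apply (QuotientGroup.eq_one_iff _).2
    apply htf _ _ (Int.natAbs_pos.2 he)
    rw [← QuotientGroup.eq_one_iff]
    change pr (relQ rs₀ r) (FreeGroup.of none ^ _) = 1
    rw [map_pow, h5]
  obtain ⟨w, rfl⟩ := QuotientGroup.mk'_surjective (nc (relQ rs₀ r)) g
  have h7 := h3 w
  rw [h6, one_zpow] at h7
  exact h7

theorem eq_zero_of_top (hH : nc rs₀ = ⊤) (he : (exs X₀ r).toAdd ≠ 0)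
    (htf : ∀ (w : FreeGroup (Option X₀)) (k : ℕ), 0 < k → w ^ k ∈ nc (relQ rs₀ r) →
      w ∈ nc (relQ rs₀ r)) (a : MonoidAlgebra ℤ (Gp (relQ rs₀ r)))
    (ha : a * fox (pr (relQ rs₀ r)) none r = 0) : a = 0 := by
  have h1 := trivial_of_top rs₀ r hH he htf
  have h2 : ∀ a : MonoidAlgebra ℤ (Gp (relQ rs₀ r)), a = MonoidAlgebra.single 1 (aug _ a) := by
    intro a
    induction a using MonoidAlgebra.induction_linear with
    | zero => rw [map_zero, MonoidAlgebra.single_zero]
    | add x y hx hy => rw [map_add, MonoidAlgebra.single_add, ← hx, ← hy]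
    | single g n => rw [aug_single, h1 g]
  have h3 := congrArg (aug _) ha
  rw [map_mul, aug_fox, map_zero] at h3
  have h4 : aug _ a = 0 := by
    rcases mul_eq_zero.1 h3 with h5 | h5
    · exact h5
    · exact absurd h5 he
  rw [h2 a, h4, MonoidAlgebra.single_zero]

end trivial

end Pool.Agent.Lib.MP_11cd85_al
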