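import Pool.Agent.Lib.MP_11cd85_al.Cross

/-!
# Fox derivatives and the Magnus embedding
-/

set_option autoImplicit false

open scoped commutatorElement

namespace Pool.Agent.Lib.MP_11cd85_al

variable {Γ M : Type} [Group Γ] [AddCommGroup M]

/-- The left multiplication of `Γ` on `ℤΓ`. -/
noncomputable def lreg (Γ : Type) [Group Γ] : Γ →* AddMonoid.End (MonoidAlgebra ℤ Γ) :=
  (Module.toAddMonoidEnd (MonoidAlgebra ℤ Γ) (MonoidAlgebra ℤ Γ)).toMonoidHom.comp
    (MonoidAlgebra.of ℤ Γ)

theorem lreg_apply (g : Γ) (a : MonoidAlgebra ℤ Γ) :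
    lreg Γ g a = MonoidAlgebra.single g 1 * a := rfl

/-- The action of `ℤΓ` on a `Γ`-module. -/
noncomputable def act (ρ : Γ →* AddMonoid.End M) : MonoidAlgebra ℤ Γ →ₐ[ℤ] AddMonoid.End M :=
  MonoidAlgebra.lift ℤ (AddMonoid.End M) Γ ρ

theorem act_single (ρ : Γ →* AddMonoid.End M) (g : Γ) (n : ℤ) (m : M) :
    act ρ (MonoidAlgebra.single g n) m = n • ρ g m := by
  unfold act
  rw [MonoidAlgebra.lift_single]
  rfl

theorem act_add (ρ : Γ →* AddMonoid.End M) (a b : MonoidAlgebra ℤ Γ) (m : M) :
    act ρ (a + b) m = act ρ a m + act ρ b m := by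
  rw [map_add]
  rfl

theorem act_mul (ρ : Γ →* AddMonoid.End M) (a b : MonoidAlgebra ℤ Γ) (m : M) :
    act ρ (a * b) m = act ρ a (act ρ b m) := by
  rw [map_mul]
  rfl

theorem act_lreg (a b : MonoidAlgebra ℤ Γ) : act (lreg Γ) a b = a * b := by
  induction a using MonoidAlgebra.induction_linear with
  | zero => rw [map_zero, zero_mul]; rfl
  | add x y hx hy => rw [map_add, add_mul, ← hx, ← hy]; rfl
  | single g n =>
    rw [act_single, lreg_apply, ← smul_mul_assoc]
    congr 1
    rw [MonoidAlgebra.smul_single]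
    simp

variable {X : Type} (q : FreeGroup X →* Γ)

open Classical in
/-- The Fox derivative by the generator `x`. -/
noncomputable def fox (x : X) (w : FreeGroup X) : MonoidAlgebra ℤ Γ :=
  cr q (lreg Γ) (fun y => if y = x then 1 else 0) w

theorem fox_mul (x : X) (u v : FreeGroup X) :
    fox q x (u * v) = fox q x u + MonoidAlgebra.single (q u) 1 * fox q x v := by
  unfold fox
  rw [cr_mul]
  rfl

open Classical in
theorem fox_of (x y : X) : fox q x (FreeGroup.of y) = if y = x then 1 else 0 := by
  unfold fox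
  rw [cr_of]

/-- Crossed homomorphisms in terms of the Fox derivatives. -/
theorem cr_eq_sum [Fintype X] (ρ : Γ →* AddMonoid.End M) (c : X → M) (w : FreeGroup X) :
    cr q ρ c w = ∑ x, act ρ (fox q x w) (c x) := by
  classical
  symm
  apply eq_cr q ρ c (fun w => ∑ x, act ρ (fox q x w) (c x))
  · intro u v
    simp only [fox_mul, act_add, act_mul, act_single, one_smul]
    rw [Finset.sum_add_distrib, map_sum]
  · intro x
    simp only [fox_of]
    rw [Finset.sum_eq_single x]
    · rw [if_pos rfl, map_one]
      rfl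
    · intro y _ hy
      rw [if_neg (Ne.symm hy), map_zero]
      rfl
    · intro h
      exact absurd (Finset.mem_univ x) h

section magnus

variable {X : Type} [Fintype X] (N : Subgroup (FreeGroup X)) [N.Normal]

/-- The additive abelianization of `N`. -/
abbrev NAb (N : Subgroup (FreeGroup X)) : Type := Additive (Abelianization N)

/-- A section of the projection. -/
noncomputable def sec (g : FreeGroup X ⧸ N) : FreeGroup X := open Classical in
  if g = 1 then 1 else Quotient.out g

omit [Fintype X] in
theorem mk_sec (g : FreeGroup X ⧸ N) : QuotientGroup.mk' N (sec N g) = g := by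
  classical
  unfold sec
  split_ifs with h
  · rw [map_one, h]
  · exact QuotientGroup.out_eq' g

omit [Fintype X] in
theorem sec_one : sec N 1 = 1 := if_pos rfl

omit [Fintype X] in
theorem edge_mem (g : FreeGroup X ⧸ N) (w : FreeGroup X) :
    sec N g * w * (sec N (g * QuotientGroup.mk' N w))⁻¹ ∈ N := by
  rw [← QuotientGroup.eq_one_iff]
  change QuotientGroup.mk' N _ = 1
  rw [map_mul, map_mul, map_inv, mk_sec, mk_sec]
  group

/-- The class of the path labelled `w` starting at `g`. -/
noncomputable def edge (g : FreeGroup X ⧸ N) (w : FreeGroup X) : NAb N :=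
  Additive.ofMul (Abelianization.of ⟨_, edge_mem N g w⟩)

omit [Fintype X] in
theorem edge_mul (g : FreeGroup X ⧸ N) (u v : FreeGroup X) :
    edge N g (u * v) = edge N g u + edge N (g * QuotientGroup.mk' N u) v := by
  have h : (⟨_, edge_mem N g (u * v)⟩ : N) = ⟨_, edge_mem N g u⟩ *
      ⟨_, edge_mem N (g * QuotientGroup.mk' N u) v⟩ := by
    apply Subtype.ext
    have h1 : g * QuotientGroup.mk' N (u * v) =
        g * QuotientGroup.mk' N u * QuotientGroup.mk' N v := by
      rw [map_mul, mul_assoc]
    change sec N g * (u * v) * (sec N (g * QuotientGroup.mk' N (u * v)))⁻¹ =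
      sec N g * u * (sec N (g * QuotientGroup.mk' N u))⁻¹ *
        (sec N (g * QuotientGroup.mk' N u) * v *
          (sec N (g * QuotientGroup.mk' N u * QuotientGroup.mk' N v))⁻¹)
    rw [h1]
    group
  unfold edge
  rw [h, map_mul]
  rfl

/-- Right translation of functions. -/
def rtr (Γ M : Type) [Group Γ] [AddCommGroup M] : Γ →* AddMonoid.End (Γ → M) where
  toFun h :=
    { toFun := fun f g => f (g * h)
      map_zero' := rfl
      map_add' := fun _ _ => rfl }
  map_one' := by
    ext f g
    change f (g * 1) = f g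
    rw [mul_one]
  map_mul' a b := by
    ext f g
    change f (g * (a * b)) = f (g * a * b)
    rw [mul_assoc]

/-- **Magnus**: an element of `N` with vanishing Fox derivatives in `ℤ(F/N)` is in `[N,N]`. -/
theorem mem_commutator_of_fox {u : FreeGroup X} (hu : u ∈ N)
    (h : ∀ x, fox (QuotientGroup.mk' N) x u = 0) : u ∈ ⁅N, N⁆ := by
  have h1 : (fun g => edge N g u) = (0 : FreeGroup X ⧸ N → NAb N) := by
    have h2 := eq_cr (QuotientGroup.mk' N) (rtr (FreeGroup X ⧸ N) (NAb N))
      (fun x g => edge N g (FreeGroup.of x)) (fun w g => edge N g w)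
      (fun a b => funext fun g => edge_mul N g a b) (fun x => rfl) u
    refine h2.trans ?_
    rw [cr_eq_sum]
    apply Finset.sum_eq_zero
    intro x _
    rw [h x, map_zero]
    rfl
  have h3 : edge N 1 u = 0 := congrFun h1 1
  have h4 : Abelianization.of (⟨_, edge_mem N 1 u⟩ : N) = 1 := h3
  have h5 : (⟨_, edge_mem N 1 u⟩ : N) ∈ commutator N := by
    rw [← Abelianization.ker_of]
    exact h4
  have h6 : sec N 1 * u * (sec N (1 * QuotientGroup.mk' N u))⁻¹ = u := by
    have : QuotientGroup.mk' N u = 1 := (QuotientGroup.eq_one_iff u).2 hu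
    rw [this, mul_one, sec_one, one_mul, inv_one, mul_one]
  rw [← Subgroup.map_subtype_commutator]
  exact ⟨_, h5, h6⟩

end magnus

end Pool.Agent.Lib.MP_11cd85_al
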