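import Pool.Agent.Lib.MP_11cd85_al.Mal

/-!
# The cocycle of a counterexample
-/

set_option autoImplicit false
set_option linter.unusedSectionVars false

open scoped RealInnerProductSpace

namespace Pool.Agent.Lib.MP_11cd85_al

/-- If `δ v = 0` only for `v = 0` in `ℓ²(G)`, then `a δ = 0` only for `a = 0` in `ℤG`. -/
theorem eq_zero_of_injective {G : Type} [Group G] {a δ : MonoidAlgebra ℤ G} (h : a * δ = 0)
    (hinj : Function.Injective (opT G δ)) : a = 0 := by
  have htop : Bcl (opT G δ) = ⊤ :=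
    Bcl_eq_top (S := Unit) (T := Unit) (U := sp1 G) (V := sp1 G) (opT_eqv δ) hinj le_rfl
  apply opT_injective
  have h1 : Bcl (opT G δ) ≤ (opT G a).ker := by
    apply Submodule.topologicalClosure_minimal
    · rintro _ ⟨f, rfl⟩
      change opT G a (opT G δ f) = 0
      rw [← opT_mul, h, map_zero]
      rfl
    · exact (opT G a).isClosed_ker
  apply ContinuousLinearMap.ext
  intro f
  have h2 : f ∈ Bcl (opT G δ) := by
    rw [htop]
    trivial
  exact h1 h2

variable {X₀ ι₀ : Type} (rs₀ : ι₀ → FreeGroup X₀) (r : FreeGroup (Option X₀))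

/-- **Structure of counterexamples**. -/
theorem exists_cocycle [Fintype X₀] [Fintype ι₀] (hP : Asph rs₀)
    (he : (exs X₀ r).toAdd ≠ 0 ∨ nc rs₀ ≠ ⊤)
    (hinj : ∀ w : FreeGroup X₀, FreeGroup.map some w ∈ nc (relQ rs₀ r) → w ∈ nc rs₀)
    (htf : ∀ (w : FreeGroup (Option X₀)) (k : ℕ), 0 < k → w ^ k ∈ nc (relQ rs₀ r) →
      w ∈ nc (relQ rs₀ r))
    (hQ : ¬ Asph (relQ rs₀ r)) :
    ∃ (L : Subgroup (Gp (relQ rs₀ r))) (b : Gp (relQ rs₀ r) → E2 (Gp (relQ rs₀ r))),
      (∀ w : FreeGroup X₀, pr (relQ rs₀ r) (FreeGroup.map some w) ∈ L) ∧ L ≠ ⊤ ∧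
      (∀ g y, g ∉ L → y ∈ L → g * y * g⁻¹ ∈ L → y = 1) ∧
      Coc b ∧ (∀ g, g ∈ L ↔ b g = 0) ∧ ¬ Lim b := by
  classical
  obtain ⟨a, ha, ha0⟩ : ∃ a : MonoidAlgebra ℤ (Gp (relQ rs₀ r)),
      a * fox (pr (relQ rs₀ r)) none r = 0 ∧ a ≠ 0 := by
    by_contra hcon
    push Not at hcon
    exact hQ (asph_of_fox rs₀ r hP hinj hcon)
  have hH : nc rs₀ ≠ ⊤ := by
    intro hH
    rcases he with he | he
    · exact ha0 (eq_zero_of_top rs₀ r hH he htf a ha)
    · exact he hH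
  have htf' : ∀ g : Gp (relQ rs₀ r), IsOfFinOrder g → g = 1 := by
    intro g hg
    obtain ⟨k, hk, hgk⟩ := isOfFinOrder_iff_pow_eq_one.1 hg
    obtain ⟨w, rfl⟩ := QuotientGroup.mk'_surjective (nc (relQ rs₀ r)) g
    apply (QuotientGroup.eq_one_iff w).2
    apply htf w k hk
    rw [← QuotientGroup.eq_one_iff]
    exact hgk
  obtain ⟨w₀, hw₀⟩ : ∃ w : FreeGroup X₀, w ∉ nc rs₀ := by
    by_contra hcon
    push Not at hcon
    exact hH ((Subgroup.eq_top_iff' _).2 hcon)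
  have hz1 : pr (relQ rs₀ r) (FreeGroup.map some w₀) ≠ 1 := fun h =>
    hw₀ (hinj w₀ ((QuotientGroup.eq_one_iff _).1 h))
  have hz : ¬ IsOfFinOrder (pr (relQ rs₀ r) (FreeGroup.map some w₀)) := fun h => hz1 (htf' _ h)
  -- the vector
  obtain ⟨v, hv, hv0⟩ : ∃ v, opT _ (fox (pr (relQ rs₀ r)) none r) v = 0 ∧ v ≠ 0 := by
    by_contra hcon
    push Not at hcon
    exact ha0 (eq_zero_of_injective ha ((injective_iff_map_eq_zero _).2 hcon))
  obtain ⟨c, hc⟩ : ∃ c : Option X₀ → E2 (Gp (relQ rs₀ r)),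
      c = fun y => if y = none then v else 0 := ⟨_, rfl⟩
  have hcr : ∀ w, cr (pr (relQ rs₀ r)) (ltE (Gp (relQ rs₀ r))) c w =
      opT _ (fox (pr (relQ rs₀ r)) none w) v := by
    intro w
    rw [cr_eq_sum, Finset.sum_eq_single none, hc, opT_eq_act]
    · rfl
    · intro y _ hy
      rw [hc]
      change act _ _ (if y = none then v else 0) = 0
      rw [if_neg hy, map_zero]
    · intro h
      exact absurd (Finset.mem_univ _) h
  have hcH : ∀ w : FreeGroup X₀, cr (pr (relQ rs₀ r)) (ltE (Gp (relQ rs₀ r))) c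
      (FreeGroup.map some w) = 0 := by
    intro w
    rw [hcr, fox_none, map_zero]
    rfl
  obtain ⟨b, hb, hbw⟩ := exists_coc (relQ rs₀ r) c (by
    intro o
    cases o with
    | none =>
      change cr (pr (relQ rs₀ r)) (ltE (Gp (relQ rs₀ r))) c r = 0
      rw [hcr, hv]
    | some i => exact hcH (rs₀ i))
  refine ⟨zer hb, b, ?_, ?_, ?_, hb, fun g => Iff.rfl, ?_⟩
  · intro w
    rw [mem_zer, hbw, hcH]
  · intro htop
    apply hv0
    have h1 : pr (relQ rs₀ r) (FreeGroup.of none) ∈ zer hb := by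
      rw [htop]
      trivial
    rw [mem_zer, hbw, cr_of, hc] at h1
    exact h1
  · intro g y hg hy hgy
    exact zer_malnormal hb htf' hg hy hgy
  · intro hl
    apply hv0
    have h1 := eq_zero_of_lim (pr (relQ rs₀ r)) (QuotientGroup.mk'_surjective _) hb hl hz (by
      rw [hbw, hcH]) (pr (relQ rs₀ r) (FreeGroup.of none))
    rw [hbw, cr_of, hc] at h1
    exact h1

end Pool.Agent.Lib.MP_11cd85_al
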