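import Pool.Agent.Lib.MP_11cd85_al.Gsp

/-!
# The Hilbert space `ℓ²(α)`
-/

set_option autoImplicit false

open scoped RealInnerProductSpace

namespace Pool.Agent.Lib.MP_11cd85_al

/-- The real Hilbert space `ℓ²(α)`. -/
abbrev E2 (α : Type) : Type := lp (fun _ : α => ℝ) 2

theorem E2.summable {α : Type} (f : E2 α) : Summable fun a => (f a) ^ 2 := by
  have h := (lp.memℓp f).summable (by norm_num)
  refine h.congr fun a => ?_
  simp

theorem E2.norm_sq {α : Type} (f : E2 α) : ‖f‖ ^ 2 = ∑' a, (f a) ^ 2 := by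
  have h := lp.norm_rpow_eq_tsum (p := 2) (by norm_num) f
  simpa using h

theorem E2.memℓp {α : Type} {f : α → ℝ} (h : Summable fun a => (f a) ^ 2) :
    Memℓp f 2 := by
  apply memℓp_gen
  refine h.congr fun a => ?_
  simp

section cmp

variable {α β : Type} (σ : α → β) (hσ : Function.Injective σ)

/-- Composition with an injective map. -/
noncomputable def cmp : E2 β →L[ℝ] E2 α :=
  LinearMap.mkContinuous
    { toFun := fun f => ⟨fun a => f (σ a), E2.memℓp (f.summable.comp_injective hσ)⟩
      map_add' := fun _ _ => rfl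
      map_smul' := fun _ _ => rfl } 1 (by
        intro f
        rw [one_mul]
        refine (sq_le_sq₀ (norm_nonneg _) (norm_nonneg _)).1 ?_
        rw [E2.norm_sq, E2.norm_sq]
        exact tsum_comp_le_tsum_of_inj f.summable (fun b => sq_nonneg _) hσ)

theorem cmp_apply (f : E2 β) (a : α) : cmp σ hσ f a = f (σ a) := rfl

open Classical in
/-- The unit vector at `a`. -/
noncomputable def dlt {α : Type} (a : α) : E2 α := lp.single 2 a 1

open Classical in
theorem dlt_apply {α : Type} (a b : α) : dlt a b = if b = a then 1 else 0 := by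
  unfold dlt
  rw [lp.single_apply]
  by_cases h : b = a
  · subst h
    simp
  · rw [if_neg h]
    exact Pi.single_eq_of_ne h _

theorem inner_dlt {α : Type} (a : α) (f : E2 α) : ⟪dlt a, f⟫ = f a := by
  classical
  unfold dlt
  rw [lp.inner_single_left]
  simp

theorem cmp_dlt (a : α) : cmp σ hσ (dlt (σ a)) = dlt a := by
  classical
  apply lp.ext
  funext x
  rw [cmp_apply, dlt_apply, dlt_apply]
  by_cases h : x = a
  · rw [if_pos h, if_pos (congrArg σ h)]
  · rw [if_neg h, if_neg (fun h' => h (hσ h'))]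

theorem cmp_dlt_of_not_mem {b : β} (hb : ∀ a, σ a ≠ b) : cmp σ hσ (dlt b) = 0 := by
  classical
  apply lp.ext
  funext x
  rw [cmp_apply, dlt_apply, if_neg (hb x)]
  rfl

/-- The extension by zero. -/
noncomputable def ext0 : E2 α →L[ℝ] E2 β := ContinuousLinearMap.adjoint (cmp σ hσ)

theorem ext0_apply (f : E2 α) (a : α) : ext0 σ hσ f (σ a) = f a := by
  rw [← inner_dlt (σ a), real_inner_comm]
  unfold ext0
  rw [ContinuousLinearMap.adjoint_inner_left, cmp_dlt, real_inner_comm, inner_dlt]

theorem ext0_apply_of_not_mem (f : E2 α) {b : β} (hb : ∀ a, σ a ≠ b) : ext0 σ hσ f b = 0 := by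
  rw [← inner_dlt b, real_inner_comm]
  unfold ext0
  rw [ContinuousLinearMap.adjoint_inner_left, cmp_dlt_of_not_mem σ hσ hb, inner_zero_right]

theorem norm_ext0 (f : E2 α) : ‖ext0 σ hσ f‖ = ‖f‖ := by
  refine (sq_eq_sq₀ (norm_nonneg _) (norm_nonneg _)).1 ?_
  rw [← real_inner_self_eq_norm_sq, ← real_inner_self_eq_norm_sq]
  have h : cmp σ hσ (ext0 σ hσ f) = f := by
    apply lp.ext
    funext x
    rw [cmp_apply, ext0_apply]
  calc ⟪ext0 σ hσ f, ext0 σ hσ f⟫ = ⟪f, cmp σ hσ (ext0 σ hσ f)⟫ := by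
        conv_lhs => rw [ext0, ContinuousLinearMap.adjoint_inner_left]
        rfl
    _ = ⟪f, f⟫ := by rw [h]

end cmp

/-- A basis from an equivalence. -/
noncomputable def bas {ι α : Type} (σ : ι ≃ α) : HilbertBasis ι ℝ (E2 α) :=
  HilbertBasis.ofRepr
    { toFun := cmp σ σ.injective
      map_add' := map_add _
      map_smul' := map_smul _
      invFun := cmp σ.symm σ.symm.injective
      left_inv := by
        intro f
        apply lp.ext
        funext x
        rw [cmp_apply, cmp_apply, Equiv.apply_symm_apply]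
      right_inv := by
        intro f
        apply lp.ext
        funext x
        rw [cmp_apply, cmp_apply, Equiv.symm_apply_apply]
      norm_map' := by
        intro f
        change ‖cmp σ σ.injective f‖ = ‖f‖
        refine (sq_eq_sq₀ (norm_nonneg _) (norm_nonneg _)).1 ?_
        rw [E2.norm_sq, E2.norm_sq]
        exact σ.tsum_eq (fun a => (f a) ^ 2) }

theorem bas_apply {ι α : Type} (σ : ι ≃ α) (i : ι) : bas σ i = dlt (σ i) := by
  classical
  have h : (bas σ) i = (bas σ).repr.symm (lp.single 2 i 1) := rfl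
  rw [h]
  change cmp σ.symm σ.symm.injective (dlt i) = dlt (σ i)
  have h2 := cmp_dlt σ.symm σ.symm.injective (σ i)
  rwa [Equiv.symm_apply_apply] at h2

section gsp

variable {G S α : Type} [Group G]

/-- The translation action given by an action of `G` on `α`. -/
noncomputable def trn (ac : G →* Equiv.Perm α) : G →* (E2 α →L[ℝ] E2 α) where
  toFun h := cmp (ac h⁻¹) (ac h⁻¹).injective
  map_one' := by
    ext f x
    rw [cmp_apply, inv_one, map_one]
    rfl
  map_mul' g h := by
    ext f x
    change f (ac (g * h)⁻¹ x) = f (ac h⁻¹ (ac g⁻¹ x))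
    rw [mul_inv_rev, map_mul]
    rfl

theorem trn_apply (ac : G →* Equiv.Perm α) (h : G) (f : E2 α) (x : α) :
    trn ac h f x = f (ac h⁻¹ x) := rfl

/-- The free action. -/
noncomputable def gspOf (σ : S × G ≃ α) (ac : G →* Equiv.Perm α)
    (hac : ∀ h s g, ac h (σ (s, g)) = σ (s, h * g)) : GSp G S (E2 α) where
  b := bas σ
  R := trn ac
  isom h x y := by
    have h1 : ∀ z, ‖trn ac h z‖ = ‖z‖ := by
      intro z
      refine (sq_eq_sq₀ (norm_nonneg _) (norm_nonneg _)).1 ?_
      rw [E2.norm_sq, E2.norm_sq]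
      exact (ac h⁻¹).tsum_eq (fun a => (z a) ^ 2)
    have h2 : ∀ u w : E2 α, ⟪u, w⟫ = (‖u + w‖ ^ 2 - ‖u‖ ^ 2 - ‖w‖ ^ 2) / 2 := by
      intro u w
      rw [norm_add_sq_real]
      ring
    rw [h2, h2, ← map_add, h1, h1, h1]
  hR h s g := by
    apply lp.ext
    funext x
    rw [bas_apply, bas_apply, ← hac h s g, trn_apply]
    classical
    rw [dlt_apply, dlt_apply]
    have h1 : ac h⁻¹ x = σ (s, g) ↔ x = ac h (σ (s, g)) := by
      rw [map_inv]
      exact Equiv.Perm.inv_eq_iff_eq
    by_cases h2 : ac h⁻¹ x = σ (s, g)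
    · rw [if_pos h2, if_pos (h1.1 h2)]
    · rw [if_neg h2, if_neg (fun h3 => h2 (h1.2 h3))]

end gsp

end Pool.Agent.Lib.MP_11cd85_al
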