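import Pool.Agent.Lib.MP_11cd85_al.Model
import Pool.Agent.Lib.MP_11cd85_al.Fox

/-!
# The group ring acting on `ℓ²(G)`
-/

set_option autoImplicit false

open scoped RealInnerProductSpace

namespace Pool.Agent.Lib.MP_11cd85_al

variable {G : Type} [Group G]

/-- The left translations of `G`. -/
def lac (G : Type) [Group G] : G →* Equiv.Perm G where
  toFun g := Equiv.mulLeft g
  map_one' := by
    ext x
    exact one_mul x
  map_mul' g h := by
    ext x
    exact mul_assoc g h x

/-- The right translations of `T × G`. -/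
def rac (T G : Type) [Group G] : G →* Equiv.Perm (T × G) where
  toFun g :=
    { toFun := fun p => (p.1, p.2 * g⁻¹)
      invFun := fun p => (p.1, p.2 * g)
      left_inv := fun p => by simp
      right_inv := fun p => by simp }
  map_one' := by
    ext p
    · rfl
    · change p.2 * 1⁻¹ = p.2
      simp
  map_mul' g h := by
    ext p
    · rfl
    · change p.2 * (g * h)⁻¹ = p.2 * h⁻¹ * g⁻¹
      simp [mul_assoc]

/-- The right translations of `G`. -/
def rac1 (G : Type) [Group G] : G →* Equiv.Perm G where
  toFun g := Equiv.mulRight g⁻¹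
  map_one' := by
    ext x
    change x * 1⁻¹ = x
    simp
  map_mul' g h := by
    ext x
    change x * (g * h)⁻¹ = x * h⁻¹ * g⁻¹
    simp [mul_assoc]

/-- Left translation of `ℓ²(G)`. -/
noncomputable abbrev lt (G : Type) [Group G] : G →* (E2 G →L[ℝ] E2 G) := trn (lac G)

theorem lt_apply (g : G) (f : E2 G) (x : G) : lt G g f x = f (g⁻¹ * x) := rfl

/-- The free action of `G` on `ℓ²(G)` by right translations. -/
noncomputable def sp1 (G : Type) [Group G] : GSp G Unit (E2 G) :=
  gspOf { toFun := fun p => p.2⁻¹
          invFun := fun x => ((), x⁻¹)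
          left_inv := fun p => by simp
          right_inv := fun p => by simp } (rac1 G) (by
    intro h s g
    change g⁻¹ * h⁻¹ = (h * g)⁻¹
    rw [mul_inv_rev])

theorem sp1_R (h : G) (f : E2 G) (x : G) : (sp1 G).R h f x = f (x * h) := by
  change f (x * (h⁻¹)⁻¹) = _
  rw [inv_inv]

/-- The free action of `G` on `ℓ²(T × G)` by right translations. -/
noncomputable def spT (T G : Type) [Group G] : GSp G T (E2 (T × G)) :=
  gspOf { toFun := fun p => (p.1, p.2⁻¹)
          invFun := fun p => (p.1, p.2⁻¹)
          left_inv := fun p => by simp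
          right_inv := fun p => by simp } (rac T G) (by
    intro h s g
    change (s, g⁻¹ * h⁻¹) = (s, (h * g)⁻¹)
    rw [mul_inv_rev])

theorem spT_R {T : Type} (h : G) (f : E2 (T × G)) (t : T) (x : G) :
    (spT T G).R h f (t, x) = f (t, x * h) := by
  change f (t, x * (h⁻¹)⁻¹) = _
  rw [inv_inv]

/-- Left translation as an endomorphism. -/
noncomputable def ltE (G : Type) [Group G] : G →* AddMonoid.End (E2 G) where
  toFun g := (lt G g).toLinearMap.toAddMonoidHom
  map_one' := by
    ext f x
    change lt G 1 f x = f x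
    rw [lt_apply, inv_one, one_mul]
  map_mul' g h := by
    ext f x
    change lt G (g * h) f x = lt G g (lt G h f) x
    rw [lt_apply, lt_apply, lt_apply, mul_inv_rev, mul_assoc]

theorem ltE_apply (g : G) (f : E2 G) (x : G) : ltE G g f x = f (g⁻¹ * x) := rfl

/-- The operator of an element of `ℤG`. -/
noncomputable def opT (G : Type) [Group G] : MonoidAlgebra ℤ G →ₐ[ℤ] (E2 G →L[ℝ] E2 G) :=
  MonoidAlgebra.lift ℤ (E2 G →L[ℝ] E2 G) G (lt G)

theorem opT_single (g : G) (n : ℤ) (f : E2 G) :
    opT G (MonoidAlgebra.single g n) f = n • lt G g f := by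
  unfold opT
  rw [MonoidAlgebra.lift_single]
  rfl

theorem opT_add (a b : MonoidAlgebra ℤ G) (f : E2 G) :
    opT G (a + b) f = opT G a f + opT G b f := by
  rw [map_add]
  rfl

theorem opT_mul (a b : MonoidAlgebra ℤ G) (f : E2 G) :
    opT G (a * b) f = opT G a (opT G b f) := by
  rw [map_mul]
  rfl

theorem opT_eq_act (a : MonoidAlgebra ℤ G) (f : E2 G) : opT G a f = act (ltE G) a f := by
  induction a using MonoidAlgebra.induction_linear with
  | zero => rw [map_zero, map_zero]; rfl
  | add x y hx hy => rw [opT_add, act_add, hx, hy]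
  | single g n => rw [opT_single, act_single]; rfl

/-- The coefficients of `a` are the values of `T_a δ₁`. -/
theorem opT_dlt (a : MonoidAlgebra ℤ G) (x : G) :
    opT G a (dlt 1) x = (a.coeff x : ℝ) := by
  classical
  induction a using MonoidAlgebra.induction_linear with
  | zero => rw [map_zero]; simp
  | add u v hu hv =>
    rw [opT_add]
    change opT G u (dlt 1) x + opT G v (dlt 1) x = _
    rw [hu, hv, MonoidAlgebra.coeff_add, Finsupp.add_apply]
    push_cast
    rfl
  | single g n =>
    rw [opT_single, MonoidAlgebra.coeff_single, Finsupp.single_apply]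
    have h1 : ∀ u : E2 G, (n • u : E2 G) x = (n : ℝ) * u x := by
      intro u
      rw [← Int.cast_smul_eq_zsmul ℝ]
      rfl
    rw [h1, lt_apply, dlt_apply]
    by_cases h : g = x
    · rw [if_pos h, if_pos (by rw [h, inv_mul_cancel])]
      simp
    · rw [if_neg h, if_neg (fun h2 => h (inv_mul_eq_one.1 h2))]
      simp

theorem opT_injective {a : MonoidAlgebra ℤ G} (h : opT G a = 0) : a = 0 := by
  apply MonoidAlgebra.ext
  apply Finsupp.ext
  intro x
  have h1 := opT_dlt a x
  rw [h] at h1
  have h2 : ((a.coeff x : ℤ) : ℝ) = 0 := h1.symm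
  exact_mod_cast h2

/-- The operators commute with right translations. -/
theorem opT_eqv (a : MonoidAlgebra ℤ G) : GSp.Eqv (sp1 G) (sp1 G) (opT G a) := by
  intro h f
  induction a using MonoidAlgebra.induction_linear with
  | zero => rw [map_zero]; simp
  | add u v hu hv => rw [opT_add, opT_add, hu, hv, map_add]
  | single g n =>
    rw [opT_single, opT_single, map_zsmul]
    congr 1
    apply lp.ext
    funext x
    rw [lt_apply, sp1_R, sp1_R, lt_apply, mul_assoc]

end Pool.Agent.Lib.MP_11cd85_al
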