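import Pool.Agent.Lib.MP_11cd85_al.Fox

/-!
# Asphericity of a presentation in terms of Fox derivatives
-/

set_option autoImplicit false

open scoped commutatorElement

namespace Pool.Agent.Lib.MP_11cd85_al

variable {X ι : Type} (rel : ι → FreeGroup X)

/-- The normal closure of the relators. -/
abbrev nc (rel : ι → FreeGroup X) : Subgroup (FreeGroup X) :=
  Subgroup.normalClosure (Set.range rel)

/-- The group of the presentation. -/
abbrev Gp (rel : ι → FreeGroup X) : Type := FreeGroup X ⧸ nc rel

/-- The projection. -/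
abbrev pr (rel : ι → FreeGroup X) : FreeGroup X →* Gp rel := QuotientGroup.mk' (nc rel)

/-- The word of a list. -/
def wd (l : List (FreeGroup X × ι × ℤ)) : FreeGroup X :=
  (l.map fun t => (t.1 * rel t.2.1 * t.1⁻¹) ^ t.2.2).prod

open scoped Classical in
/-- Asphericity as in the frozen statement: the relators freely generate the relation module. -/
def Asph (rel : ι → FreeGroup X) : Prop :=
  ∀ l : List (FreeGroup X × ι × ℤ), wd rel l ∈ ⁅nc rel, nc rel⁆ →
    ∀ (i : ι) (g : FreeGroup X),
      (l.map fun t => if t.2.1 = i ∧ g⁻¹ * t.1 ∈ nc rel then t.2.2 else 0).sum = 0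

theorem pr_rel (i : ι) : pr rel (rel i) = 1 :=
  (QuotientGroup.eq_one_iff _).2 (Subgroup.subset_normalClosure ⟨i, rfl⟩)

theorem pr_conj (g : FreeGroup X) (i : ι) : pr rel (g * rel i * g⁻¹) = 1 := by
  rw [map_mul, map_mul, pr_rel, mul_one, map_inv, mul_inv_cancel]

theorem pr_wd (l : List (FreeGroup X × ι × ℤ)) : pr rel (wd rel l) = 1 := by
  unfold wd
  induction l with
  | nil => rfl
  | cons t l ih =>
    rw [List.map_cons, List.prod_cons, map_mul, ih, mul_one, map_zpow, pr_conj, one_zpow]

theorem wd_mem (l : List (FreeGroup X × ι × ℤ)) : wd rel l ∈ nc rel :=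
  (QuotientGroup.eq_one_iff _).1 (pr_wd rel l)

open scoped Classical in
/-- The coefficient of the relator `i` in `ℤ Gp`. -/
noncomputable def lam (l : List (FreeGroup X × ι × ℤ)) (i : ι) : MonoidAlgebra ℤ (Gp rel) :=
  (l.map fun t => if t.2.1 = i then MonoidAlgebra.single (pr rel t.1) t.2.2 else 0).sum

theorem lam_cons (t : FreeGroup X × ι × ℤ) (l : List (FreeGroup X × ι × ℤ)) (i : ι) :
    lam rel (t :: l) i = lam rel [t] i + lam rel l i := by
  classical
  unfold lam
  rw [List.map_cons, List.sum_cons, List.map_cons, List.sum_cons, List.map_nil, List.sum_nil,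
    add_zero]

open scoped Classical in
theorem lam_coeff (l : List (FreeGroup X × ι × ℤ)) (i : ι) (g : FreeGroup X) :
    (lam rel l i).coeff (pr rel g) =
      (l.map fun t => if t.2.1 = i ∧ g⁻¹ * t.1 ∈ nc rel then t.2.2 else 0).sum := by
  unfold lam
  induction l with
  | nil => rfl
  | cons t l ih =>
    rw [List.map_cons, List.sum_cons, List.map_cons, List.sum_cons, MonoidAlgebra.coeff_add,
      Finsupp.add_apply, ih]
    congr 1
    have h : pr rel t.1 = pr rel g ↔ g⁻¹ * t.1 ∈ nc rel := by
      rw [eq_comm]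
      exact QuotientGroup.eq
    by_cases h1 : t.2.1 = i
    · rw [if_pos h1, MonoidAlgebra.coeff_single, Finsupp.single_apply]
      by_cases h2 : g⁻¹ * t.1 ∈ nc rel
      · rw [if_pos (h.2 h2), if_pos ⟨h1, h2⟩]
      · rw [if_neg (fun h3 => h2 (h.1 h3)), if_neg (fun h3 => h2 h3.2)]
    · rw [if_neg h1, if_neg (fun h3 => h1 h3.1)]
      rfl

theorem asph_iff_lam : Asph rel ↔ ∀ l : List (FreeGroup X × ι × ℤ),
    wd rel l ∈ ⁅nc rel, nc rel⁆ → ∀ i, lam rel l i = 0 := by
  constructor
  · intro h l hl i
    apply MonoidAlgebra.ext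
    apply Finsupp.ext
    intro g
    obtain ⟨g, rfl⟩ := QuotientGroup.mk'_surjective (nc rel) g
    rw [lam_coeff]
    exact h l hl i g
  · intro h l hl i g
    rw [← lam_coeff, h l hl i]
    rfl

/-- The value of a crossed homomorphism on the word of a list. -/
theorem cr_wd [Fintype ι] {M : Type} [AddCommGroup M] (ρ : Gp rel →* AddMonoid.End M) (c : X → M)
    (l : List (FreeGroup X × ι × ℤ)) :
    cr (pr rel) ρ c (wd rel l) = ∑ i, act ρ (lam rel l i) (cr (pr rel) ρ c (rel i)) := by
  classical
  induction l with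
  | nil =>
    rw [show wd rel [] = 1 from rfl, cr_one]
    symm
    apply Finset.sum_eq_zero
    intro i _
    rw [show lam rel [] i = 0 from rfl, map_zero]
    rfl
  | cons t l ih =>
    have h1 : wd rel (t :: l) = (t.1 * rel t.2.1 * t.1⁻¹) ^ t.2.2 * wd rel l := rfl
    have h2 : pr rel ((t.1 * rel t.2.1 * t.1⁻¹) ^ t.2.2) = 1 := by
      rw [map_zpow, pr_conj, one_zpow]
    rw [h1, cr_mul_ker _ _ _ h2, cr_zpow _ _ _ (pr_conj rel _ _),
      cr_conj _ _ _ _ (pr_rel rel _), ih]
    simp only [lam_cons rel t l, act_add]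
    rw [Finset.sum_add_distrib]
    congr 1
    rw [Finset.sum_eq_single t.2.1]
    · have h3 : lam rel [t] t.2.1 = MonoidAlgebra.single (pr rel t.1) t.2.2 := by
        unfold lam
        rw [List.map_cons, List.sum_cons, List.map_nil, List.sum_nil, add_zero, if_pos rfl]
      rw [h3, act_single]
    · intro i _ hi
      have h3 : lam rel [t] i = 0 := by
        unfold lam
        rw [List.map_cons, List.sum_cons, List.map_nil, List.sum_nil, add_zero,
          if_neg (Ne.symm hi)]
      rw [h3, map_zero]
      rfl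
    · intro h
      exact absurd (Finset.mem_univ _) h

/-- Every family of coefficients comes from a list. -/
theorem exists_lam [Fintype ι] (a : ι → MonoidAlgebra ℤ (Gp rel)) :
    ∃ l : List (FreeGroup X × ι × ℤ), ∀ i, lam rel l i = a i := by
  classical
  have hadd : ∀ (l l' : List (FreeGroup X × ι × ℤ)) (i : ι),
      lam rel (l ++ l') i = lam rel l i + lam rel l' i := by
    intro l l' i
    unfold lam
    rw [List.map_append, List.sum_append]
  have h1 : ∀ (j : ι) (x : MonoidAlgebra ℤ (Gp rel)), ∃ l : List (FreeGroup X × ι × ℤ),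
      ∀ i, lam rel l i = if i = j then x else 0 := by
    intro j x
    induction x using MonoidAlgebra.induction_linear with
    | zero => exact ⟨[], fun i => by rw [ite_self]; rfl⟩
    | add x y hx hy =>
      obtain ⟨l, hl⟩ := hx
      obtain ⟨l', hl'⟩ := hy
      refine ⟨l ++ l', fun i => ?_⟩
      rw [hadd, hl, hl']
      split_ifs
      · rfl
      · rw [add_zero]
    | single g n =>
      obtain ⟨g, rfl⟩ := QuotientGroup.mk'_surjective (nc rel) g
      refine ⟨[(g, j, n)], fun i => ?_⟩
      unfold lam
      rw [List.map_cons, List.sum_cons, List.map_nil, List.sum_nil, add_zero]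
      by_cases h : i = j
      · rw [if_pos h, if_pos h.symm]
      · rw [if_neg h, if_neg (Ne.symm h)]
  choose L hL using h1
  refine ⟨((Finset.univ : Finset ι).toList.map fun j => L j (a j)).flatten, fun i => ?_⟩
  have h2 : ∀ s : List ι, lam rel ((s.map fun j => L j (a j)).flatten) i =
      (s.map fun j => if i = j then a j else 0).sum := by
    intro s
    induction s with
    | nil => rfl
    | cons j s ih =>
      rw [List.map_cons, List.flatten_cons, hadd, ih, List.map_cons, List.sum_cons, hL]
  rw [h2]
  have h3 := Finset.sum_map_toList (Finset.univ : Finset ι) (fun j => if i = j then a j else 0)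
  rw [h3, Finset.sum_ite_eq, if_pos (Finset.mem_univ i)]

/-- Asphericity in terms of the Fox derivatives. -/
theorem asph_iff [Fintype X] [Fintype ι] : Asph rel ↔
    ∀ a : ι → MonoidAlgebra ℤ (Gp rel), (∀ x, ∑ i, a i * fox (pr rel) x (rel i) = 0) →
      ∀ i, a i = 0 := by
  classical
  have hfox : ∀ (x : X) (l : List (FreeGroup X × ι × ℤ)), fox (pr rel) x (wd rel l) =
      ∑ i, lam rel l i * fox (pr rel) x (rel i) := by
    intro x l
    unfold fox
    rw [cr_wd]
    simp only [act_lreg]
  rw [asph_iff_lam]
  constructor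
  · intro h a ha i
    obtain ⟨l, hl⟩ := exists_lam rel a
    rw [← hl i]
    apply h l
    apply mem_commutator_of_fox (nc rel) (wd_mem rel l)
    intro x
    change fox (pr rel) x (wd rel l) = 0
    rw [hfox]
    simp only [hl]
    exact ha x
  · intro h l hl i
    apply h (lam rel l)
    intro x
    rw [← hfox]
    unfold fox
    exact (cr_commutator (pr rel) _ _ (N := nc rel)
      (fun u hu => (QuotientGroup.eq_one_iff u).2 hu) hl).1

end Pool.Agent.Lib.MP_11cd85_al
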